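import Pool.Agent.Q211.BL.Ana

/-!
# Strict monotonicity among the closed sublattices of C(Cantor set; L_1[0,1]) is Pi^1_1-complete

`CC` is the Banach lattice `C(Delta; L_1[0,1])`, `Subl` is the set of its closed sublattices, and
`wijsman α` is the Wijsman topology on it.

Hardness. Let `d_0` and `d_u`, for the finite binary words `u`, be normalized indicators of disjoint
intervals. Put `w_0 t = ∑ 2^(-i-1) t(2i)`, and let `w_u t` be `1` if `t(2i) = 0` and
`t(2i+1) = u_i` for all `i < |u|`, and `1/2` otherwise. For a set `D` of words let `F_D` be the
closed span of `e_0 = w_0 d_0` and of `e_u = w_u d_u`, `u` in `D`. It is a closed sublattice.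

If infinitely many initial segments `u_m` of a branch `b` are in `D`, then
`‖e_0 + x‖ = ‖x‖ = 4` for `x = ∑ 2^(1-m) e_(u_m)` (the norm is attained at `t = (0,b_0,0,b_1,...)`,
where `e_0` vanishes), so `F_D` is not strictly monotone. If no branch meets `D` infinitely often and
`0 < y ≤ x` in `F_D` with `‖x - y‖ = ‖x‖`, then `y t = 0` and `‖x t‖ = ‖x‖` for some `t`, hence
`w_0 t = 0` and the coefficient of `x` at `e_0` is positive; if we change `t(2N)` to `1` for a large
`N`, then no weight `w_u`, `u` in `D`, becomes smaller and `w_0` becomes positive, which contradicts
the maximality of `‖x t‖`.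

The map `D ↦ F_D` is continuous since `dist (a, F_D)` depends up to `ε` on finitely many words only:
for `a` in `CC` almost all of the mass of `a t` is on finitely many of the intervals, uniformly in
`t`. Finally every analytic subset of a zero-dimensional Polish space `Y` is the set of those `y` for
which some branch meets `D_y` infinitely often, for a continuous map `y ↦ D_y`.

The upper bound. The complement of the set of the strictly monotone sublattices is the image of a
Borel set of triples `(z, x, y)` under a Borel map, where `z` is a dense sequence in the sublattice.
-/

set_option autoImplicit false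

namespace Pool.Agent.Results.MP_4a2ece_lc.StrictMonotonicityComplete

open Pool.Agent.Q211.BL

/-- For the Wijsman topology on the set of the closed sublattices of `C(Delta; L_1[0,1])`, the set of
the strictly monotone closed sublattices is (boldface) `Pi^1_1`-complete. -/
theorem result (α : ℕ → CC) (_hα : DenseRange α) :
    Pi11Complete (wijsman α) {G : Subl | StrictlyMonotone G} := by
  refine ⟨coanalytic α, ?_⟩
  intro Y _ _ hY B hB
  obtain ⟨g, hg, hgB⟩ := reduction hY B hB
  refine ⟨fun y => F (g y), ?_, ?_⟩
  · exact continuous_induced_rng.mpr (continuous_pi (fun n => F_cont g hg (α n)))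
  · ext y
    show StrictlyMonotone (F (g y)) ↔ y ∈ B
    rw [mono_iff, hgB y, not_not]

end Pool.Agent.Results.MP_4a2ece_lc.StrictMonotonicityComplete
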